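import Pool.Agent.W420.NS.Stm

set_option autoImplicit false

namespace Pool.Agent.W554.NS

open Pool.Agent.W420.NS

theorem cub (h : S_NB) : S_CUB := by
  intro P hD hS hB hc v
  obtain ⟨-, nb, h1, h2, h3, h4⟩ := h P hD hS hB hc
  have hset : P.graph.neighborSet v = Set.range (fun i : Fin 3 => (nb (v, i)).1) := by
    ext w
    simp only [SimpleGraph.mem_neighborSet, Set.mem_range]
    unfold Pole.graph
    rw [SimpleGraph.fromRel_adj]
    constructor
    · rintro ⟨hne, ⟨e, he, h5, h6⟩ | ⟨e, he, h5, h6⟩⟩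
      · refine ⟨e.1.2, ?_⟩
        have : ((v, e.1.2) : P.V × Fin 3) = e.1 := by rw [← h5]
        rw [this, (h1 e he).1, h6]
      · refine ⟨e.2.2, ?_⟩
        have : ((v, e.2.2) : P.V × Fin 3) = e.2 := by rw [← h6]
        rw [this, (h1 e he).2, h5]
    · rintro ⟨i, rfl⟩
      refine ⟨(h3 v i).symm, ?_⟩
      rcases h2 (v, i) with h5 | h5
      · left; exact ⟨_, h5, rfl, rfl⟩
      · right; exact ⟨_, h5, rfl, rfl⟩
  rw [hset]
  have hinj : Function.Injective (fun i : Fin 3 => (nb (v, i)).1) := fun i j hij => h4 v i j hij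
  rw [← Set.image_univ, Set.ncard_image_of_injective _ hinj, Set.ncard_univ]
  simp

theorem con : S_CON := by
  classical
  intro P hne hB
  have := hne
  refine ⟨?_⟩
  intro x y
  by_contra hxy
  have hB' := hB (fun z => decide (P.graph.Reachable x z)) ?_ ?_
  · have hpos := hB'.1
    unfold cutN at hpos
    obtain ⟨e, he⟩ := List.exists_mem_of_length_pos (Nat.lt_of_lt_of_le Nat.zero_lt_one hpos)
    rw [List.mem_filter] at he
    obtain ⟨he1, he2⟩ := he
    have hne' : e.1.1 ≠ e.2.1 := by
      intro h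
      rw [h] at he2
      simp at he2
    have hadj : P.graph.Adj e.1.1 e.2.1 := by
      unfold Pole.graph
      rw [SimpleGraph.fromRel_adj]
      exact ⟨hne', Or.inl ⟨e, he1, rfl, rfl⟩⟩
    have hiff : P.graph.Reachable x e.1.1 ↔ P.graph.Reachable x e.2.1 :=
      ⟨fun h => h.trans hadj.reachable, fun h => h.trans hadj.symm.reachable⟩
    simp [hiff] at he2
  · unfold sz
    have : 0 < Fintype.card {z // decide (P.graph.Reachable x z) = true} :=
      Fintype.card_pos_iff.2 ⟨⟨x, by simp⟩⟩
    exact le_min (by norm_num) this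
  · unfold sz
    have : 0 < Fintype.card {z // (!decide (P.graph.Reachable x z)) = true} :=
      Fintype.card_pos_iff.2 ⟨⟨y, by simpa using hxy⟩⟩
    exact le_min (by norm_num) this

end Pool.Agent.W554.NS
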